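import Pool.Agent.Run7.h488.Sel.Sum
import Pool.Agent.Helper647.GR.ForceCH

/-!
# A Fubini sum of selective ultrafilters can be a non-selective q-point

Under the continuum hypothesis, which can be forced, there is a depth two Fubini iterate of
p-points (a sum of pairwise non-isomorphic selective ultrafilters) which is a q-point and is not
selective.
-/

set_option autoImplicit false

namespace Pool.Agent.Results.MP_21276c_lc.ConsistentlyNo

open Cardinal Run7.h488.Sel
open Pool.Agent.Helper647.GR.ForceCH (OmegaOnePreserved CHHolds)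

/-- The Fubini iterates of p-points: `Iter k` is the class of the iterates of depth `≤ k + 1`. -/
inductive Iter : ℕ → Ultrafilter ℕ → Prop
  | base (W : Ultrafilter ℕ) : PPoint W → Iter 0 W
  | step (j : ℕ) (W : Ultrafilter ℕ) : Iter j W → Iter (j + 1) W
  | sum (j : ℕ) (W : Ultrafilter ℕ) (Y : ℕ → Ultrafilter ℕ) :
      PPoint W → (∀ n, Iter j (Y n)) → Iter (j + 1) (lim W Y)

/-- `V` is Tukey reducible to `U`: there is a monotone cofinal map from `U` to `V`. -/
def TukeyLE (V U : Ultrafilter ℕ) : Prop :=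
  ∃ g : Set ℕ → Set ℕ, (∀ A ∈ U, g A ∈ V) ∧
    (∀ A ∈ U, ∀ B ∈ U, A ⊆ B → g A ⊆ g B) ∧ ∀ B ∈ V, ∃ A ∈ U, g A ⊆ B

/-- `U` and `V` are isomorphic: some permutation of `ℕ` maps `U` to `V`. -/
def Iso (U V : Ultrafilter ℕ) : Prop := ∃ σ : Equiv.Perm ℕ, U.map σ = V

theorem selective_ppoint {V : Ultrafilter ℕ} (h : Selective V) : PPoint V := by
  classical
  refine ⟨h.1, fun A hA => ?_⟩
  by_cases hall : (⋂ n, A n) ∈ V
  · refine ⟨_, hall, fun n => ?_⟩
    have : (⋂ n, A n) \ A n = ∅ := by
      ext a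
      simp only [Set.mem_diff, Set.mem_iInter, Set.mem_empty_iff_false, iff_false, not_and,
        not_not]
      intro ha
      exact ha n
    rw [this]
    exact Set.finite_empty
  · have hc : (⋂ n, A n)ᶜ ∈ V := Ultrafilter.compl_mem_iff_notMem.2 hall
    let f : ℕ → ℕ := fun x => if h : ∃ n, x ∉ A n then Nat.find h else 0
    have hf : ∀ x, x ∈ (⋂ n, A n)ᶜ → x ∉ A (f x) := by
      intro x hx
      have hex : ∃ n, x ∉ A n := by simpa using hx
      have : f x = Nat.find hex := dif_pos hex
      rw [this]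
      exact Nat.find_spec hex
    rcases h.2 f with ⟨X, hX, c, hXc⟩ | ⟨X, hX, hinj⟩
    · exfalso
      obtain ⟨x, hx⟩ := Ultrafilter.nonempty_of_mem (Filter.inter_mem (Filter.inter_mem hX hc) (hA c))
      have := hf x hx.1.2
      rw [hXc x hx.1.1] at this
      exact this hx.2
    · refine ⟨X, hX, fun n => ?_⟩
      refine Set.Finite.of_finite_image (f := f) ?_ (hinj.mono Set.diff_subset)
      refine (Set.finite_Iic n).subset ?_
      rintro _ ⟨x, hx, rfl⟩
      have hex : ∃ n, x ∉ A n := ⟨n, hx.2⟩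
      have : f x = Nat.find hex := dif_pos hex
      rw [Set.mem_Iic, this]
      exact Nat.find_min' hex hx.2

/-- Rudin-Keisler reducibility between selective ultrafilters is an isomorphism. -/
theorem iso_of_map {U V : Ultrafilter ℕ} (hU : Selective U) (hV : Free V) {f : ℕ → ℕ}
    (hf : U.map f = V) : Iso U V := by
  classical
  rcases hU.2 f with ⟨X, hX, c, hc⟩ | ⟨X, hX, hinj⟩
  · exfalso
    apply hV c
    rw [← hf, Ultrafilter.mem_map]
    exact Filter.mem_of_superset hX (fun x hx => hc x hx)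
  · -- shrink `X` so that it and its image have infinite complements
    obtain ⟨X1, hX1, hX1X, hX1c, hX1i⟩ : ∃ X1 ∈ U, X1 ⊆ X ∧ (X1ᶜ).Infinite ∧ ((f '' X1)ᶜ).Infinite := by
      have hXi := hU.1.infinite hX
      let g := Nat.nth (· ∈ X)
      have hg1 : StrictMono g := Nat.nth_strictMono hXi
      have hg2 : ∀ n, g n ∈ X := fun n => Nat.nth_mem_of_infinite hXi n
      have hg3 : ∀ x ∈ X, ∃ n, g n = x := fun x hx => by
        have := Nat.range_nth_of_infinite (p := (· ∈ X)) hXi
        have hx' : x ∈ Set.range (Nat.nth (· ∈ X)) := by rw [this]; exact hx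
        exact hx'
      let E : ℕ → Set ℕ := fun i => {x | ∃ n, n % 2 = i ∧ g n = x}
      have hEinf : ∀ i < 2, (E i).Infinite := by
        intro i hi
        refine Set.infinite_of_injective_forall_mem (f := fun n : ℕ => g (2 * n + i))
          (fun a b hab => ?_) (fun n => ⟨2 * n + i, by omega, rfl⟩)
        have := hg1.injective hab
        omega
      have hEX : ∀ i, E i ⊆ X := by
        rintro i _ ⟨n, -, rfl⟩
        exact hg2 n
      have hdisj : Disjoint (E 0) (E 1) := by
        rw [Set.disjoint_left]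
        rintro _ ⟨n, hn, rfl⟩ ⟨m, hm, hmn⟩
        have := hg1.injective hmn
        omega
      have hcase : E 0 ∈ U ∨ E 1 ∈ U := by
        by_contra hcon
        push Not at hcon
        have h1 := Ultrafilter.compl_mem_iff_notMem.2 hcon.1
        have h2 := Ultrafilter.compl_mem_iff_notMem.2 hcon.2
        obtain ⟨x, hx⟩ := Ultrafilter.nonempty_of_mem (Filter.inter_mem (Filter.inter_mem h1 h2) hX)
        obtain ⟨n, hn⟩ := hg3 x hx.2
        rcases Nat.mod_two_eq_zero_or_one n with h | h
        · exact hx.1.1 ⟨n, h, hn⟩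
        · exact hx.1.2 ⟨n, h, hn⟩
      have main : ∀ i j, i < 2 → j < 2 → Disjoint (E i) (E j) → E i ∈ U →
          ∃ X1 ∈ U, X1 ⊆ X ∧ (X1ᶜ).Infinite ∧ ((f '' X1)ᶜ).Infinite := by
        intro i j _ hj hij hi
        refine ⟨E i, hi, hEX i, (hEinf j hj).mono (fun x hx hx' => Set.disjoint_left.1 hij hx' hx),
          ?_⟩
        refine Set.Infinite.mono (s := f '' (E j)) ?_ ((hEinf j hj).image (hinj.mono (hEX j)))
        rintro _ ⟨x, hx, rfl⟩ ⟨y, hy, hyx⟩
        have := hinj (hEX i hy) (hEX j hx) hyx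
        subst this
        exact Set.disjoint_left.1 hij hy hx
      rcases hcase with h | h
      · exact main 0 1 (by norm_num) (by norm_num) hdisj h
      · exact main 1 0 (by norm_num) (by norm_num) hdisj.symm h
    have hinj1 : Set.InjOn f X1 := hinj.mono hX1X
    have : Infinite ↥(X1ᶜ) := hX1c.to_subtype
    have : Infinite ↥((f '' X1)ᶜ) := hX1i.to_subtype
    obtain ⟨e1⟩ : Nonempty (↥(X1ᶜ) ≃ ↥((f '' X1)ᶜ)) := nonempty_equiv_of_countable
    let e0 : ↥X1 ≃ ↥(f '' X1) := Equiv.Set.imageOfInjOn f X1 hinj1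
    let σ : Equiv.Perm ℕ := ((Equiv.Set.sumCompl X1).symm.trans (Equiv.sumCongr e0 e1)).trans
      (Equiv.Set.sumCompl (f '' X1))
    refine ⟨σ, ?_⟩
    rw [← hf]
    apply Ultrafilter.coe_injective
    change Filter.map σ (U : Filter ℕ) = Filter.map f (U : Filter ℕ)
    apply Filter.map_congr
    filter_upwards [hX1] with x hx
    simp only [σ, Equiv.trans_apply]
    rw [Equiv.Set.sumCompl_symm_apply_of_mem hx]
    simp only [Equiv.sumCongr_apply, Sum.map_inl, Equiv.Set.sumCompl_apply_inl]
    rfl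

/-- A sum, over a p-point, of pairwise non-isomorphic selective ultrafilters is a Fubini iterate of
p-points and a q-point, and is not selective. -/
theorem example_of {W : Ultrafilter ℕ} {e : ℕ → Ultrafilter ℕ} (hW : PPoint W)
    (he : ∀ n, Selective (e n)) (hne : ∀ n m, n ≠ m → ¬ Iso (e n) (e m)) :
    Iter 1 (lim W e) ∧ QPoint (lim W e) ∧ ¬ Selective (lim W e) :=
  ⟨Iter.sum 0 W e hW (fun n => Iter.base _ (selective_ppoint (he n))),
    lim_qpoint (fun n => ⟨selective_ppoint (he n), he n⟩)
      (fun n m hnm f hf => hne n m hnm (iso_of_map (he n) (he m).1 hf)),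
    lim_not_selective hW.1 (fun n => (he n).1)⟩

/-- **Consistently no.** The first part says that the continuum hypothesis can be forced. The
second part says that the continuum hypothesis gives Fubini iterates of p-points `U` (of depth
`≤ 2`) and a q-point `V` which is Tukey reducible to `U` and is not selective. -/
theorem result :
    (∃ (P : Type) (_ : Preorder P), Nonempty P ∧
      ∀ p : P, p ∈ OmegaOnePreserved P ∧ p ∈ CHHolds P) ∧
    ((ℵ₁ : Cardinal.{0}) = 𝔠 →
      ∃ U V : Ultrafilter ℕ, Iter 1 U ∧ QPoint V ∧ TukeyLE V U ∧ ¬ Selective V) := by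
  refine ⟨?_, fun hCH => ?_⟩
  · obtain ⟨P, hP, hne, h⟩ := Pool.Agent.Helper647.GR.ForceCH.exists_forcing
    exact ⟨P, hP, hne, fun p => ⟨(h p).1, (h p).2.2⟩⟩
  · obtain ⟨e, he, hne⟩ := exists_selectives hCH
    have h := example_of (he 0).1 (fun n => (he n).2) (fun n m hnm => by
      rintro ⟨σ, hσ⟩
      exact hne n m hnm σ hσ)
    exact ⟨_, _, h.1, h.2.1,
      ⟨id, fun A hA => hA, fun A _ B _ h => h, fun B hB => ⟨B, hB, subset_rfl⟩⟩, h.2.2⟩

end Pool.Agent.Results.MP_21276c_lc.ConsistentlyNo
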